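import Pool.Agent.Q10.Enh.Upper

/-!
# Enhanced growth: the lower bound `s ≤ (n - 1) ^ 2`
-/

set_option autoImplicit false

namespace Q10.Enh

variable {Z : ℕ → ℕ → Prop} {z : ℕ → ℕ}

/-- number of drops of `z` before `i` -/
def drops (z : ℕ → ℕ) (i : ℕ) : ℕ := ((Finset.range i).filter (fun x => z (x + 1) < z x)).card

theorem drops_succ {i : ℕ} : drops z (i + 1) = drops z i + if z (i + 1) < z i then 1 else 0 := by
  unfold drops
  rw [Finset.range_add_one, Finset.filter_insert]
  split_ifs with h
  · rw [Finset.card_insert_of_notMem (by simp)]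
  · rfl

theorem drops_eq (hanti : Antitone z) {a i : ℕ} (hai : a ≤ i) : z a ≤ z i →
    drops z i = drops z a := by
  induction i, hai using Nat.le_induction with
  | base => intro _; rfl
  | succ i hi ih =>
    intro h
    have h1 := hanti (Nat.le_succ i)
    have h2 := hanti hi
    rw [drops_succ, if_neg (by simp only [Nat.succ_eq_add_one] at h1; omega),
      ih (by simp only [Nat.succ_eq_add_one] at h1; omega), Nat.add_zero]

/-- Without row enhancements and with the heights of `Z` as column enhancements, the growth along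
the bottom row passes at most one drop per unit of time. -/
theorem drops_lt (hz : ∀ x y, Z x y ↔ y < z x) (hanti : Antitone z) :
    ∀ t i, Reach Z (fun _ => 0) z t i 0 → drops z i < t := by
  intro t
  induction t with
  | zero => intro i h; exact absurd h (by simp [Reach])
  | succ t ih =>
    intro i h
    obtain ⟨a, b, ha, hb, hn, h1, _⟩ := h
    have hb0 : b = 0 := by omega
    subst hb0
    rw [hz] at hn
    have h2 : z a ≤ z i := by
      simp only [Nat.zero_add, Nat.add_zero] at hn
      omega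
    rw [drops_eq hanti ha h2]
    cases a with
    | zero => simp [drops]
    | succ a =>
      have h3 := ih a (h1 a (by omega))
      rw [drops_succ]
      split_ifs <;> omega

/-- The strategy at a corner of maximal sum in a window. -/
theorem corner (hlow : ∀ x y x' y', x' ≤ x → y' ≤ y → Z x y → Z x' y') {W H P Q x0 y0 n : ℕ}
    (hW : ∀ x y, W ≤ x → ¬ Z x y) (hH : ∀ x y, H ≤ y → ¬ Z x y)
    (hz0 : Z x0 y0) (hP : P + n ≤ x0 + 1) (hQ : Q + n ≤ y0 + 1)
    (hmax : ∀ x y, P ≤ x → Q ≤ y → Z x y → x + y ≤ x0 + y0) :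
    ∃ r c : ℕ → ℕ, Antitone r ∧ Antitone c ∧ (∀ j, H ≤ j → r j = 0) ∧ (∀ i, W ≤ i → c i = 0) ∧
      (∀ i j, ¬ Z (r j + i) (c i + j)) ∧ ¬ Reach Z r c n n n := by
  refine ⟨fun j => if j < H then max P (x0 + 1 - j) else 0,
    fun i => if i < W then max Q (y0 - i) else 0, ?_, ?_, ?_, ?_, ?_, ?_⟩
  · intro j j' h
    dsimp only
    split_ifs <;> omega
  · intro j j' h
    dsimp only
    split_ifs <;> omega
  · intro j h
    dsimp only
    rw [if_neg (by omega)]
  · intro j h
    dsimp only
    rw [if_neg (by omega)]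
  · intro i j
    dsimp only
    by_cases hj : j < H
    · by_cases hi : i < W
      · rw [if_pos hj, if_pos hi]
        intro hZ
        have := hmax _ _ (by omega) (by omega) hZ
        omega
      · exact hW _ _ (by omega)
    · exact hH _ _ (by omega)
  · obtain ⟨r, hr⟩ : ∃ r : ℕ → ℕ, r = fun j => if j < H then max P (x0 + 1 - j) else 0 := ⟨_, rfl⟩
    obtain ⟨c, hc⟩ : ∃ c : ℕ → ℕ, c = fun i => if i < W then max Q (y0 - i) else 0 := ⟨_, rfl⟩
    rw [← hr, ← hc]
    have hr' : ∀ j, r j ≤ max P (x0 + 1 - j) := by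
      intro j
      rw [hr]
      dsimp only
      split_ifs <;> omega
    have hc' : ∀ i, c i ≤ max Q (y0 - i) := by
      intro i
      rw [hc]
      dsimp only
      split_ifs <;> omega
    have key : ∀ t ≤ n, ∀ i j, Reach Z r c t i j → i < t ∨ j < t := by
      intro t
      induction t with
      | zero => intro _ i j h; exact absurd h (by simp [Reach])
      | succ t ih =>
        intro ht i j h
        by_contra hcon
        push Not at hcon
        obtain ⟨a, b, ha, hb, hn, h1, h2⟩ := h
        have hat : a ≤ t := by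
          by_contra hlt
          push Not at hlt
          rcases ih (by omega) t j (h1 t hlt) with h3 | h3 <;> omega
        have hbt : b ≤ t := by
          by_contra hlt
          push Not at hlt
          rcases ih (by omega) i t (h2 t hlt) with h3 | h3 <;> omega
        have h3 := hr' j
        have h4 := hc' i
        exact hn (hlow x0 y0 _ _ (by omega) (by omega) hz0)
    intro h
    rcases key n le_rfl n n h with h1 | h1 <;> omega

/-- number of corners outside the window -/
def ex (z : ℕ → ℕ) (W P Q : ℕ) : ℕ :=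
  ((Finset.range W).filter (fun x => z (x + 1) < z x ∧ (x < P ∨ z x ≤ Q))).card

theorem ex_le {W P Q : ℕ} : ex z W P Q ≤ drops z W := by
  unfold ex drops
  apply Finset.card_le_card
  intro x hx
  simp only [Finset.mem_filter] at hx ⊢
  exact ⟨hx.1, hx.2.1⟩

theorem ex_lt {W P Q P' Q' x : ℕ} (hP : P ≤ P') (hQ : Q ≤ Q') (hxW : x < W)
    (hx : z (x + 1) < z x) (h1 : ¬ (x < P ∨ z x ≤ Q)) (h2 : x < P' ∨ z x ≤ Q') :
    ex z W P Q + 1 ≤ ex z W P' Q' := by
  unfold ex
  apply Finset.card_lt_card
  rw [Finset.ssubset_iff_of_subset]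
  · refine ⟨x, ?_, ?_⟩
    · simp only [Finset.mem_filter, Finset.mem_range]
      exact ⟨hxW, hx, h2⟩
    · simp only [Finset.mem_filter, Finset.mem_range]
      exact fun h => h1 h.2.2
  · intro y hy
    simp only [Finset.mem_filter, Finset.mem_range] at hy ⊢
    exact ⟨hy.1, hy.2.1, by omega⟩

/-- If every good enhancement pair spans within time `n`, then squares contained in `Z` have side
at most `(n - 1) ^ 2`. -/
theorem lower {W n s : ℕ} (hz : ∀ x y, Z x y ↔ y < z x) (hanti : Antitone z) (hW : z W = 0)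
    (hs : ∀ x y, x < s → y < s → Z x y)
    (h : ∀ r c : ℕ → ℕ, Antitone r → Antitone c → (∃ J, ∀ j, J ≤ j → r j = 0) →
      (∃ I, ∀ i, I ≤ i → c i = 0) → (∀ i j, ¬ Z (r j + i) (c i + j)) →
      ∀ i j, Reach Z r c n i j) : s ≤ (n - 1) * (n - 1) := by
  have hlow : ∀ x y x' y', x' ≤ x → y' ≤ y → Z x y → Z x' y' := by
    intro x y x' y' hx hy hZ
    rw [hz] at hZ ⊢
    have := hanti hx
    omega
  have hWx : ∀ x y, W ≤ x → ¬ Z x y := by
    intro x y hx hZ
    rw [hz] at hZ
    have := hanti hx
    omega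
  have hHy : ∀ x y, z 0 ≤ y → ¬ Z x y := by
    intro x y hy hZ
    rw [hz] at hZ
    have := hanti (Nat.zero_le x)
    omega
  -- the number of drops
  have hD : drops z W ≤ n - 1 := by
    have h1 := h (fun _ => 0) z (fun _ _ _ => le_rfl) hanti ⟨0, fun _ _ => rfl⟩
      ⟨W, fun i hi => by have := hanti hi; omega⟩
      (by
        intro i j hZ
        rw [hz] at hZ
        simp only [Nat.zero_add] at hZ
        omega) W 0
    have h2 := drops_lt hz hanti n W h1
    omega
  by_contra hcon
  push Not at hcon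
  have key : ∀ k : ℕ, ∃ P Q, k ≤ P + Q ∧ P + Q ≤ (n - 1) * ex z W P Q := by
    intro k
    induction k with
    | zero => exact ⟨0, 0, by omega, by omega⟩
    | succ k ih =>
      obtain ⟨P, Q, hk, hPQ⟩ := ih
      have h1 : (n - 1) * ex z W P Q ≤ (n - 1) * (n - 1) :=
        Nat.mul_le_mul_left _ (ex_le.trans hD)
      have hZPQ : Z P Q := hs P Q (by omega) (by omega)
      -- the corner of maximal sum
      obtain ⟨S, hS⟩ : ∃ S, S = (Finset.range W ×ˢ Finset.range (z 0)).filter
        (fun p : ℕ × ℕ => P ≤ p.1 ∧ Q ≤ p.2 ∧ p.2 < z p.1) := ⟨_, rfl⟩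
      have hmemS : ∀ x y, (x, y) ∈ S ↔ P ≤ x ∧ Q ≤ y ∧ Z x y := by
        intro x y
        rw [hS]
        simp only [Finset.mem_filter, Finset.mem_product, Finset.mem_range, ← hz]
        constructor
        · rintro ⟨_, h2⟩; exact h2
        · rintro ⟨h2, h3, h4⟩
          refine ⟨⟨?_, ?_⟩, h2, h3, h4⟩
          · by_contra hx
            exact hWx x y (by omega) h4
          · exact hlow x y 0 y (Nat.zero_le _) le_rfl h4
      have hne : S.Nonempty := ⟨(P, Q), (hmemS P Q).2 ⟨le_rfl, le_rfl, hZPQ⟩⟩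
      obtain ⟨⟨x0, y0⟩, hx0, hmax⟩ := S.exists_max_image (fun p => p.1 + p.2) hne
      obtain ⟨hPx, hQy, hZ0⟩ := (hmemS x0 y0).1 hx0
      have hmax' : ∀ x y, P ≤ x → Q ≤ y → Z x y → x + y ≤ x0 + y0 := fun x y h2 h3 h4 =>
        hmax (x, y) ((hmemS x y).2 ⟨h2, h3, h4⟩)
      have hy0 : y0 < z x0 := (hz _ _).1 hZ0
      have hzx : z x0 ≤ y0 + 1 := by
        by_contra hlt
        push Not at hlt
        have := hmax' x0 (y0 + 1) hPx (by omega) ((hz _ _).2 hlt)
        omega
      have hzx1 : z (x0 + 1) ≤ y0 := by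
        by_contra hlt
        push Not at hlt
        have := hmax' (x0 + 1) y0 (by omega) hQy ((hz _ _).2 hlt)
        omega
      have hxW : x0 < W := by
        by_contra hx
        exact hWx x0 y0 (by omega) hZ0
      have hor : x0 + 1 < P + n ∨ y0 + 1 < Q + n := by
        by_contra hno
        push Not at hno
        obtain ⟨r, c, h2, h3, h4, h5, h6, h7⟩ := corner hlow hWx hHy hZ0 hno.1 hno.2 hmax'
        exact h7 (h r c h2 h3 ⟨_, h4⟩ ⟨_, h5⟩ h6 n n)
      rcases hor with h2 | h2
      · have h3 := ex_lt (z := z) (W := W) (P := P) (Q := Q) (P' := x0 + 1) (Q' := Q) (x := x0)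
          (by omega) le_rfl hxW (by omega) (by omega) (by omega)
        refine ⟨x0 + 1, Q, by omega, ?_⟩
        have h4 : (n - 1) * (ex z W P Q + 1) ≤ (n - 1) * ex z W (x0 + 1) Q :=
          Nat.mul_le_mul_left _ h3
        rw [Nat.mul_add, Nat.mul_one] at h4
        omega
      · have h3 := ex_lt (z := z) (W := W) (P := P) (Q := Q) (P' := P) (Q' := y0 + 1) (x := x0)
          le_rfl (by omega) hxW (by omega) (by omega) (by omega)
        refine ⟨P, y0 + 1, by omega, ?_⟩
        have h4 : (n - 1) * (ex z W P Q + 1) ≤ (n - 1) * ex z W P (y0 + 1) :=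
          Nat.mul_le_mul_left _ h3
        rw [Nat.mul_add, Nat.mul_one] at h4
        omega
  obtain ⟨P, Q, hk, hPQ⟩ := key ((n - 1) * (n - 1) + 1)
  have h1 : (n - 1) * ex z W P Q ≤ (n - 1) * (n - 1) :=
    Nat.mul_le_mul_left _ (ex_le.trans hD)
  omega

end Q10.Enh
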