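import Mathlib

/-!
# Enhanced growth: the combinatorial form and the upper bound for one-arm zero-sets
-/

set_option autoImplicit false

namespace Q10.Enh

/-- Cells `(i, j)` reached at time `t` by the enhanced growth with zero-set `Z` and enhancements
`r` (of the rows) and `c` (of the columns). -/
def Reach (Z : ℕ → ℕ → Prop) (r c : ℕ → ℕ) : ℕ → ℕ → ℕ → Prop
  | 0, _, _ => False
  | t + 1, i, j => ∃ a b, a ≤ i ∧ b ≤ j ∧ ¬ Z (r j + a) (c i + b) ∧
      (∀ a' < a, Reach Z r c t a' j) ∧ (∀ b' < b, Reach Z r c t i b')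

variable {Z : ℕ → ℕ → Prop} {r c : ℕ → ℕ}

theorem Reach.succ : ∀ {t i j : ℕ}, Reach Z r c t i j → Reach Z r c (t + 1) i j := by
  intro t
  induction t with
  | zero => intro i j h; exact absurd h (by simp [Reach])
  | succ t ih =>
    intro i j h
    obtain ⟨a, b, ha, hb, hz, h1, h2⟩ := h
    exact ⟨a, b, ha, hb, hz, fun a' h' => ih (h1 a' h'), fun b' h' => ih (h2 b' h')⟩

theorem Reach.mono {t t' i j : ℕ} (htt : t ≤ t') (h : Reach Z r c t i j) :
    Reach Z r c t' i j := by
  induction t', htt using Nat.le_induction with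
  | base => exact h
  | succ n _ ih => exact ih.succ

theorem Reach.lower (hZ : ∀ x y x' y', x' ≤ x → y' ≤ y → Z x y → Z x' y')
    (hr : Antitone r) (hc : Antitone c) : ∀ {t i j i' j' : ℕ}, i' ≤ i → j' ≤ j →
    Reach Z r c t i j → Reach Z r c t i' j' := by
  intro t
  induction t with
  | zero => intro i j i' j' _ _ h; exact absurd h (by simp [Reach])
  | succ t ih =>
    intro i j i' j' hi hj h
    obtain ⟨a, b, ha, hb, hz, h1, h2⟩ := h
    by_cases hia : i' < a
    · exact (ih le_rfl hj (h1 i' hia)).succ
    · by_cases hjb : j' < b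
      · exact (ih hi le_rfl (h2 j' hjb)).succ
      · refine ⟨a, b, by omega, by omega, fun hz' => hz ?_, fun a' h' => ih le_rfl hj (h1 a' h'),
          fun b' h' => ih hi le_rfl (h2 b' h')⟩
        have h3 := hr hj
        have h4 := hc hi
        exact hZ _ _ _ _ (by omega) (by omega) hz'

/-- If the condition holds at every cell then every cell is reached. -/
theorem reach_of_good (hgood : ∀ i j, ¬ Z (r j + i) (c i + j)) :
    ∀ n i j, i + j < n → Reach Z r c n i j := by
  intro n
  induction n with
  | zero => intro i j h; omega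
  | succ n ih =>
    intro i j h
    exact ⟨i, j, le_rfl, le_rfl, hgood i j, fun a' h' => ih a' j (by omega),
      fun b' h' => ih i b' (by omega)⟩

/-- If a cell is reached then the condition holds at it. -/
theorem good_of_reach (hZ : ∀ x y x' y', x' ≤ x → y' ≤ y → Z x y → Z x' y') {t i j : ℕ}
    (h : Reach Z r c t i j) : ¬ Z (r j + i) (c i + j) := by
  cases t with
  | zero => exact absurd h (by simp [Reach])
  | succ t =>
    obtain ⟨a, b, ha, hb, hz, _, _⟩ := h
    exact fun hz' => hz (hZ _ _ _ _ (by omega) (by omega) hz')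

/-! ### One-arm zero-sets -/

/-- The one-arm zero-set with widths `X 1 ≤ ... ≤ X m` and heights `m q, (m - 1) q, ..., q`. -/
def Arm (m q : ℕ) (X : ℕ → ℕ) (x y : ℕ) : Prop := ∃ a, a < m ∧ x < X (a + 1) ∧ y < (m - a) * q

theorem arm_lower {m q : ℕ} {X : ℕ → ℕ} : ∀ x y x' y', x' ≤ x → y' ≤ y → Arm m q X x y →
    Arm m q X x' y' := by
  rintro x y x' y' hx hy ⟨a, ha, h1, h2⟩
  exact ⟨a, ha, by omega, by omega⟩

section

variable {m q : ℕ} {X : ℕ → ℕ}

/-- a state of the backward path -/
def St (m q : ℕ) (X r c : ℕ → ℕ) (i j a : ℕ) : Prop :=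
  a ≤ m ∧ X a ≤ r j + i ∧ (m - a) * q ≤ c i + j

/-- a step of the backward path -/
def Step (m q : ℕ) (X r c : ℕ → ℕ) (i j a i' j' a' : ℕ) : Prop :=
  (r j < X a ∧ i' + 1 + r j = X a ∧ j' = j ∧ a = a' + 1) ∨
  (c i < (m - a) * q ∧ j' + 1 + c i = (m - a) * q ∧ i' = i ∧ a' = a + 1)

theorem not_arm_of (hmono : Monotone X) {a x y : ℕ} (hx : X a ≤ x) (hy : (m - a) * q ≤ y) :
    ¬ Arm m q X x y := by
  rintro ⟨b, hb, h1, h2⟩
  by_cases hab : a ≤ b
  · have h3 : (m - b) * q ≤ (m - a) * q := Nat.mul_le_mul_right q (by omega)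
    omega
  · have h3 : X (b + 1) ≤ X a := hmono (by omega)
    omega

theorem exists_step (hX0 : X 0 = 0) (hstrict : ∀ a, X a < X (a + 1)) (hq : 1 ≤ q)
    (hr : Antitone r) (hc : Antitone c)
    (hgood : ∀ i j, ¬ Arm m q X (r j + i) (c i + j)) {t i j a : ℕ}
    (hst : St m q X r c i j a) (hn : ¬ Reach (Arm m q X) r c (t + 1) i j) :
    ∃ i' j' a', Step m q X r c i j a i' j' a' ∧ St m q X r c i' j' a' ∧
      ¬ Reach (Arm m q X) r c t i' j' := by
  have hmono : Monotone X := monotone_nat_of_le_succ (fun a => (hstrict a).le)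
  obtain ⟨ham, hx, hy⟩ := hst
  have h1 : ¬ Arm m q X (r j + (X a - r j)) (c i + ((m - a) * q - c i)) :=
    not_arm_of hmono (a := a) (by omega) (by omega)
  by_cases hH : ∀ a' < X a - r j, Reach (Arm m q X) r c t a' j
  · by_cases hV : ∀ b' < (m - a) * q - c i, Reach (Arm m q X) r c t i b'
    · exact absurd ⟨X a - r j, (m - a) * q - c i, by omega, by omega, h1, hH, hV⟩ hn
    · push Not at hV
      obtain ⟨b', hb', hnr⟩ := hV
      -- vertical step
      have ham' : a < m := by
        by_contra hcon
        have : m - a = 0 := by omega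
        rw [this] at hb'
        simp at hb'
      have hmul : (m - a) * q = (m - (a + 1)) * q + q := by
        have : m - a = (m - (a + 1)) + 1 := by omega
        rw [this]; ring
      refine ⟨i, (m - a) * q - 1 - c i, a + 1, Or.inr ⟨by omega, by omega, rfl, rfl⟩,
        ⟨by omega, ?_, by omega⟩, ?_⟩
      · by_contra hcon
        push Not at hcon
        have h2 := hr (show (m - a) * q - 1 - c i ≤ j by omega)
        exact hgood i ((m - a) * q - 1 - c i) ⟨a, ham', hcon, by omega⟩
      · intro hcon
        exact hnr (Reach.lower arm_lower hr hc le_rfl (by omega) hcon)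
  · push Not at hH
    obtain ⟨a', ha', hnr⟩ := hH
    obtain ⟨a, rfl⟩ : ∃ d, a = d + 1 := by
      cases a with
      | zero => omega
      | succ d => exact ⟨d, rfl⟩
    have hX := hstrict a
    refine ⟨X (a + 1) - 1 - r j, j, a, Or.inl ⟨by omega, by omega, rfl, rfl⟩,
      ⟨by omega, by omega, ?_⟩, ?_⟩
    · by_contra hcon
      push Not at hcon
      exact hgood (X (a + 1) - 1 - r j) j ⟨a, by omega, by omega, by omega⟩
    · intro hcon
      exact hnr (Reach.lower arm_lower hr hc (by omega) le_rfl hcon)

/-- The backward path of length `N` from a cell that is not reached at time `N`. -/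
theorem exists_path (hX0 : X 0 = 0) (hstrict : ∀ a, X a < X (a + 1)) (hq : 1 ≤ q)
    (hr : Antitone r) (hc : Antitone c)
    (hgood : ∀ i j, ¬ Arm m q X (r j + i) (c i + j)) : ∀ (N i j a : ℕ),
    St m q X r c i j a → ¬ Reach (Arm m q X) r c N i j →
    ∃ I J A : ℕ → ℕ, (∀ n ≤ N, St m q X r c (I n) (J n) (A n)) ∧
      (∀ n < N, Step m q X r c (I n) (J n) (A n) (I (n + 1)) (J (n + 1)) (A (n + 1))) ∧
      I 0 = i ∧ J 0 = j ∧ A 0 = a := by
  intro N
  induction N with
  | zero =>
    intro i j a hst _
    exact ⟨fun _ => i, fun _ => j, fun _ => a, fun n _ => hst, fun n hn => by omega, rfl, rfl, rfl⟩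
  | succ N ih =>
    intro i j a hst hn
    obtain ⟨i', j', a', h1, h2, h3⟩ := exists_step hX0 hstrict hq hr hc hgood hst hn
    obtain ⟨I, J, A, h4, h5, h6, h7, h8⟩ := ih i' j' a' h2 h3
    refine ⟨fun n => Nat.casesOn n i I, fun n => Nat.casesOn n j J, fun n => Nat.casesOn n a A,
      ?_, ?_, rfl, rfl, rfl⟩
    · intro n hn
      cases n with
      | zero => exact hst
      | succ n => exact h4 n (by omega)
    · intro n hn
      cases n with
      | zero => simpa [h6, h7, h8] using h1
      | succ n => exact h5 n (by omega)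

end

/-- Data of a backward path of length `N`. -/
structure Path (m q : ℕ) (X r c : ℕ → ℕ) (N : ℕ) (I J A : ℕ → ℕ) : Prop where
  st : ∀ n ≤ N, St m q X r c (I n) (J n) (A n)
  step : ∀ n < N, Step m q X r c (I n) (J n) (A n) (I (n + 1)) (J (n + 1)) (A (n + 1))

section

variable {m q N : ℕ} {X I J A : ℕ → ℕ}

/-- vertical step at time `n` -/
def V (A : ℕ → ℕ) (n : ℕ) : Prop := A (n + 1) = A n + 1

instance : DecidablePred (V A) := fun n => by unfold V; infer_instance

theorem Path.vert (P : Path m q X r c N I J A) {n : ℕ} (hn : n < N) (h : V A n) :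
    c (I n) < (m - A n) * q ∧ J (n + 1) + 1 + c (I n) = (m - A n) * q ∧ I (n + 1) = I n ∧
      A (n + 1) = A n + 1 := by
  have := P.step n hn
  unfold V at h
  rcases this with h1 | h1
  · omega
  · exact h1

theorem Path.horiz (P : Path m q X r c N I J A) {n : ℕ} (hn : n < N) (h : ¬ V A n) :
    r (J n) < X (A n) ∧ I (n + 1) + 1 + r (J n) = X (A n) ∧ J (n + 1) = J n ∧
      A n = A (n + 1) + 1 := by
  have := P.step n hn
  unfold V at h
  rcases this with h1 | h1
  · exact h1
  · omega

theorem Path.J_le (P : Path m q X r c N I J A) {n : ℕ} (hn : n < N) : J (n + 1) ≤ J n := by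
  by_cases h : V A n
  · have h1 := P.vert hn h
    have h2 := P.st n hn.le
    unfold St at h2
    omega
  · exact (P.horiz hn h).2.2.1.le

theorem Path.J_lt (P : Path m q X r c N I J A) {n : ℕ} (hn : n < N) (h : V A n) :
    J (n + 1) < J n := by
  have h1 := P.vert hn h
  have h2 := P.st n hn.le
  unfold St at h2
  omega

theorem Path.I_le (P : Path m q X r c N I J A) {n : ℕ} (hn : n < N) : I (n + 1) ≤ I n := by
  by_cases h : V A n
  · exact (P.vert hn h).2.2.1.le
  · have h1 := P.horiz hn h
    have h2 := P.st n hn.le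
    unfold St at h2
    omega

theorem Path.I_anti (P : Path m q X r c N I J A) {n n' : ℕ} (hnn : n ≤ n') (hn : n' ≤ N) :
    I n' ≤ I n := by
  induction n', hnn using Nat.le_induction with
  | base => exact le_rfl
  | succ k hk ih => exact (P.I_le (by omega)).trans (ih (by omega))

theorem Path.J_anti (P : Path m q X r c N I J A) {n n' : ℕ} (hnn : n ≤ n') (hn : n' ≤ N) :
    J n' ≤ J n := by
  induction n', hnn using Nat.le_induction with
  | base => exact le_rfl
  | succ k hk ih => exact (P.J_le (by omega)).trans (ih (by omega))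

/-- At a turn from vertical to horizontal the column enhancement increases. -/
theorem Path.c_lt (P : Path m q X r c N I J A) (hq : 1 ≤ q) {n : ℕ} (hn : n + 1 < N) (h : V A n)
    (h' : ¬ V A (n + 1)) : c (I (n + 1)) < c (I (n + 2)) := by
  have h1 := P.vert (by omega) h
  have h2 := P.horiz hn h'
  have h3 := P.st (n + 2) (by omega)
  unfold St at h3
  have h4 : A (n + 2) = A n := by
    have := h2.2.2.2
    have := h1.2.2.2
    have e : n + 1 + 1 = n + 2 := rfl
    rw [e] at *
    omega
  rw [h4] at h3
  have h5 : J (n + 2) = J (n + 1) := h2.2.2.1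
  have h6 : I (n + 1) = I n := h1.2.2.1
  rw [h6]
  omega

/-- the turns from vertical to horizontal -/
def K (A : ℕ → ℕ) (N : ℕ) : Finset ℕ :=
  (Finset.range N).filter (fun n => n + 1 < N ∧ V A n ∧ ¬ V A (n + 1))

/-- two consecutive vertical steps -/
def W (A : ℕ → ℕ) (N : ℕ) : Finset ℕ :=
  (Finset.range N).filter (fun n => n + 1 < N ∧ V A n ∧ V A (n + 1))

theorem mem_K {n : ℕ} : n ∈ K A N ↔ n + 1 < N ∧ V A n ∧ ¬ V A (n + 1) := by
  simp only [K, Finset.mem_filter, Finset.mem_range]
  constructor
  · rintro ⟨_, h⟩; exact h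
  · intro h; exact ⟨by omega, h⟩

theorem mem_W {n : ℕ} : n ∈ W A N ↔ n + 1 < N ∧ V A n ∧ V A (n + 1) := by
  simp only [W, Finset.mem_filter, Finset.mem_range]
  constructor
  · rintro ⟨_, h⟩; exact h
  · intro h; exact ⟨by omega, h⟩

/-- number of turns `k` with `s ≤ k < n` -/
def cnt (A : ℕ → ℕ) (N s n : ℕ) : ℕ := ((K A N).filter (fun k => s ≤ k ∧ k < n)).card

theorem cnt_succ {s n : ℕ} (hs : s ≤ n) :
    cnt A N s (n + 1) = cnt A N s n + if n ∈ K A N then 1 else 0 := by
  unfold cnt
  split_ifs with h
  · have : (K A N).filter (fun k => s ≤ k ∧ k < n + 1) =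
        insert n ((K A N).filter (fun k => s ≤ k ∧ k < n)) := by
      ext k
      simp only [Finset.mem_filter, Finset.mem_insert]
      constructor
      · rintro ⟨h1, h2, h3⟩
        by_cases hk : k = n
        · exact Or.inl hk
        · exact Or.inr ⟨h1, h2, by omega⟩
      · rintro (rfl | ⟨h1, h2, h3⟩)
        · exact ⟨h, hs, by omega⟩
        · exact ⟨h1, h2, by omega⟩
    rw [this, Finset.card_insert_of_notMem (by simp)]
  · have : (K A N).filter (fun k => s ≤ k ∧ k < n + 1) =
        (K A N).filter (fun k => s ≤ k ∧ k < n) := by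
      ext k
      simp only [Finset.mem_filter]
      constructor
      · rintro ⟨h1, h2, h3⟩
        refine ⟨h1, h2, ?_⟩
        by_contra hk
        have : k = n := by omega
        subst this
        exact h h1
      · rintro ⟨h1, h2, h3⟩
        exact ⟨h1, h2, by omega⟩
    rw [this, Nat.add_zero]

theorem cnt_self {s : ℕ} : cnt A N s s = 0 := by
  unfold cnt
  rw [Finset.card_eq_zero]
  ext k
  simp only [Finset.mem_filter, Finset.notMem_empty, iff_false]
  omega

theorem cnt_left {s n : ℕ} : cnt A N s n ≤ cnt A N (s + 1) n + 1 := by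
  unfold cnt
  refine (Finset.card_le_card (t := insert s ((K A N).filter (fun k => s + 1 ≤ k ∧ k < n)))
    ?_).trans (Finset.card_insert_le _ _)
  intro k hk
  simp only [Finset.mem_filter, Finset.mem_insert] at hk ⊢
  by_cases h : k = s
  · exact Or.inl h
  · exact Or.inr ⟨hk.1, by omega, hk.2.2⟩

theorem Path.c_cnt (P : Path m q X r c N I J A) (hq : 1 ≤ q) (hc : Antitone c) {s n : ℕ}
    (hsn : s ≤ n) : n + 1 ≤ N → c (I (s + 1)) + cnt A N s n ≤ c (I (n + 1)) := by
  induction n, hsn using Nat.le_induction with
  | base => intro _; rw [cnt_self]; exact le_rfl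
  | succ k hk ih =>
    intro hn
    have h1 := ih (by omega)
    rw [cnt_succ hk]
    split_ifs with h
    · rw [mem_K] at h
      have h2 := P.c_lt hq h.1 h.2.1 h.2.2
      have e : k + 1 + 1 = k + 2 := rfl
      rw [e]
      omega
    · have h2 := hc (P.I_le (n := k + 1) (by omega))
      omega

theorem Path.J_cnt (P : Path m q X r c N I J A) {s n : ℕ}
    (hsn : s ≤ n) : n ≤ N → J n + cnt A N s n ≤ J s := by
  induction n, hsn using Nat.le_induction with
  | base => intro _; rw [cnt_self]; exact le_rfl
  | succ k hk ih =>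
    intro hn
    have h1 := ih (by omega)
    rw [cnt_succ hk]
    split_ifs with h
    · rw [mem_K] at h
      have h2 := P.J_lt (n := k) (by omega) h.2.1
      omega
    · have h2 := P.J_le (n := k) (by omega)
      omega

theorem mul_pred {a : ℕ} (h : a + 1 ≤ m) : (m - a) * q = (m - (a + 1)) * q + q := by
  have : m - a = (m - (a + 1)) + 1 := by omega
  rw [this]; ring

theorem good_use (hdouble : ∀ a, 1 ≤ a → 2 * X a ≤ X (a + 1))
    (hgood : ∀ i j, ¬ Arm m q X (r j + i) (c i + j)) {a i j : ℕ} (ha1 : 1 ≤ a)
    (hi : i < X a) (hj : r j < X a) : (m - a) * q ≤ c i + j := by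
  by_cases ha : a < m
  · by_contra hcon
    push Not at hcon
    have := hdouble a ha1
    exact hgood i j ⟨a, ha, by omega, hcon⟩
  · have : m - a = 0 := by omega
    rw [this]; simp

theorem Path.key (P : Path m q X r c N I J A) (hq : 1 ≤ q) (hc : Antitone c)
    (hmono : Monotone X) (hdouble : ∀ a, 1 ≤ a → 2 * X a ≤ X (a + 1))
    (hgood : ∀ i j, ¬ Arm m q X (r j + i) (c i + j)) {t s s' : ℕ} (ht : t ∈ K A N)
    (hs : s ∈ K A N) (hs' : s' ∈ K A N) (hts : t < s) (hss : s ≤ s')
    (hA : A (t + 1) ≤ A (s + 1)) : cnt A N s (s' + 1) ≤ q := by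
  rw [mem_K] at ht hs
  have hs'K := hs'
  rw [mem_K] at hs'
  have hts2 : t + 2 ≤ s := by
    by_contra hcon
    have : s = t + 1 := by omega
    subst this
    exact ht.2.2 hs.2.1
  have tv := P.vert (n := t) (by omega) ht.2.1
  have th := P.horiz (n := t + 1) (by omega) ht.2.2
  have sv := P.vert (n := s) (by omega) hs.2.1
  have s'v := P.vert (n := s') (by omega) hs'.2.1
  have s'h := P.horiz (n := s' + 1) (by omega) hs'.2.2
  have hIs : I (s + 1) < X (A (t + 1)) := by
    have h1 := P.I_anti (n := t + 1 + 1) (n' := s + 1) (by omega) (by omega)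
    omega
  have stt := P.st (t + 1) (by omega)
  have sts := P.st (s + 1) (by omega)
  have sts' := P.st (s' + 1) (by omega)
  unfold St at stt sts sts'
  rcases le_or_gt (A (t + 1)) (A (s' + 1)) with hc1 | hc2
  · have h1 : X (A (t + 1)) ≤ X (A (s' + 1)) := hmono hc1
    have h2 := good_use hdouble hgood (a := A (s' + 1)) (i := I (s + 1)) (j := J (s' + 1))
      (by omega) (by omega) (by omega)
    have h3 := P.c_cnt hq hc hss (by omega)
    rw [cnt_succ hss, if_pos hs'K]
    have h4 : (m - A s') * q = (m - A (s' + 1)) * q + q := by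
      rw [s'v.2.2.2]; exact mul_pred (by omega)
    have h5 : c (I (s' + 1)) = c (I s') := by rw [s'v.2.2.1]
    omega
  · have h1 : X (A (s' + 1)) ≤ X (A (t + 1)) := hmono hc2.le
    have h2 := good_use hdouble hgood (a := A (t + 1)) (i := I (s + 1)) (j := J (s' + 1))
      (by omega) (by omega) (by omega)
    have h3 := P.J_cnt (s := s + 1) (n := s' + 1) (by omega) (by omega)
    have h4 := cnt_left (A := A) (N := N) (s := s) (n := s' + 1)
    have h5 : (m - A t) * q = (m - A (t + 1)) * q + q := by
      rw [tv.2.2.2]; exact mul_pred (by omega)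
    have h6 : c (I (s + 1)) = c (I s) := by rw [sv.2.2.1]
    have h7 : (m - A s) * q ≤ (m - A t) * q := Nat.mul_le_mul_right q (by omega)
    omega

theorem Path.card_K (P : Path m q X r c N I J A) (hq : 1 ≤ q) (hc : Antitone c)
    (hmono : Monotone X) (hdouble : ∀ a, 1 ≤ a → 2 * X a ≤ X (a + 1))
    (hgood : ∀ i j, ¬ Arm m q X (r j + i) (c i + j)) : (K A N).card ≤ m + q := by
  classical
  have hsplit := Finset.card_filter_add_card_filter_not (s := K A N)
    (fun n => ∀ t ∈ K A N, t < n → A (n + 1) < A (t + 1))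
  have h1 : ((K A N).filter (fun n => ∀ t ∈ K A N, t < n → A (n + 1) < A (t + 1))).card ≤ m := by
    have : ((K A N).filter (fun n => ∀ t ∈ K A N, t < n → A (n + 1) < A (t + 1))).card ≤
        (Finset.Icc 1 m).card := by
      apply Finset.card_le_card_of_injOn (fun n => A (n + 1))
      · intro n hn
        have hn' := (Finset.mem_filter.1 hn).1
        rw [mem_K] at hn'
        have h2 := P.st (n + 1) (by omega)
        have h3 := P.vert (n := n) (by omega) hn'.2.1
        unfold St at h2
        simp only [Finset.coe_Icc, Set.mem_Icc]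
        omega
      · intro n hn n' hn' he
        have h2 := Finset.mem_filter.1 hn
        have h3 := Finset.mem_filter.1 hn'
        simp only at he
        rcases lt_trichotomy n n' with h | h | h
        · have := h3.2 n h2.1 h
          omega
        · exact h
        · have := h2.2 n' h3.1 h
          omega
    simpa using this
  have h2 : ((K A N).filter (fun n => ¬ ∀ t ∈ K A N, t < n → A (n + 1) < A (t + 1))).card ≤ q := by
    obtain ⟨S, hS⟩ : ∃ S, S = (K A N).filter
      (fun n => ¬ ∀ t ∈ K A N, t < n → A (n + 1) < A (t + 1)) := ⟨_, rfl⟩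
    rw [← hS]
    rcases S.eq_empty_or_nonempty with he | hne
    · rw [he]; simp
    · have hmin := S.min'_mem hne
      have hmax := S.max'_mem hne
      obtain ⟨s, hs⟩ : ∃ s, s = S.min' hne := ⟨_, rfl⟩
      obtain ⟨s', hs'⟩ : ∃ s', s' = S.max' hne := ⟨_, rfl⟩
      rw [← hs] at hmin
      rw [← hs'] at hmax
      have hmin2 := hmin
      have hmax2 := hmax
      rw [hS, Finset.mem_filter] at hmin2 hmax2
      obtain ⟨hsK, hex⟩ := hmin2
      push Not at hex
      obtain ⟨t, htK, hts, hA⟩ := hex
      have hss : s ≤ s' := by rw [hs]; exact S.min'_le _ hmax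
      have h3 := P.key hq hc hmono hdouble hgood htK hsK hmax2.1 hts hss hA
      refine le_trans (Finset.card_le_card ?_) h3
      intro n hn
      rw [Finset.mem_filter]
      have h4 : s ≤ n := by rw [hs]; exact S.min'_le _ hn
      have h5 : n ≤ s' := by rw [hs']; exact S.le_max' _ hn
      rw [hS, Finset.mem_filter] at hn
      exact ⟨hn.1, h4, by omega⟩
  omega

/-- number of elements of `W` below `n` -/
def cntW (A : ℕ → ℕ) (N n : ℕ) : ℕ := ((W A N).filter (fun k => k < n)).card

theorem cntW_succ {n : ℕ} :
    cntW A N (n + 1) = cntW A N n + if n ∈ W A N then 1 else 0 := by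
  unfold cntW
  split_ifs with h
  · have : (W A N).filter (fun k => k < n + 1) =
        insert n ((W A N).filter (fun k => k < n)) := by
      ext k
      simp only [Finset.mem_filter, Finset.mem_insert]
      constructor
      · rintro ⟨h1, h3⟩
        by_cases hk : k = n
        · exact Or.inl hk
        · exact Or.inr ⟨h1, by omega⟩
      · rintro (rfl | ⟨h1, h3⟩)
        · exact ⟨h, by omega⟩
        · exact ⟨h1, by omega⟩
    rw [this, Finset.card_insert_of_notMem (by simp)]
  · have : (W A N).filter (fun k => k < n + 1) =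
        (W A N).filter (fun k => k < n) := by
      ext k
      simp only [Finset.mem_filter]
      constructor
      · rintro ⟨h1, h3⟩
        refine ⟨h1, ?_⟩
        by_contra hk
        have : k = n := by omega
        subst this
        exact h h1
      · rintro ⟨h1, h3⟩
        exact ⟨h1, by omega⟩
    rw [this, Nat.add_zero]

theorem Path.card_W (P : Path m q X r c N I J A) (hq : 1 ≤ q) : (W A N).card ≤ m := by
  have key : ∀ n, n < N → cntW A N n = 0 ∨ q * cntW A N n + J (n + 1) + 1 ≤ m * q := by
    intro n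
    induction n with
    | zero =>
      intro _
      left
      unfold cntW
      rw [Finset.card_eq_zero]
      ext k
      simp
    | succ n ih =>
      intro hn
      rw [cntW_succ]
      split_ifs with h
      · right
        rw [mem_W] at h
        have v1 := P.vert (n := n) (by omega) h.2.1
        have v2 := P.vert (n := n + 1) (by omega) h.2.2
        have st2 := P.st (n + 1 + 1) (by omega)
        unfold St at st2
        have h4 : (m - A n) * q = (m - A (n + 1)) * q + q := by
          rw [v1.2.2.2]; exact mul_pred (by omega)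
        have h5 : c (I (n + 1)) = c (I n) := by rw [v1.2.2.1]
        have h6 : (m - A n) * q ≤ m * q := Nat.mul_le_mul_right q (by omega)
        rcases ih (by omega) with h0 | h0
        · rw [h0]
          simp only [Nat.zero_add, Nat.mul_one]
          omega
        · rw [Nat.mul_add]
          omega
      · rw [Nat.add_zero]
        rcases ih (by omega) with h0 | h0
        · exact Or.inl h0
        · right
          have := P.J_le (n := n + 1) hn
          omega
  have hW : (W A N).card = cntW A N (N - 1) := by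
    unfold cntW
    congr 1
    ext k
    simp only [Finset.mem_filter]
    constructor
    · intro h
      have h2 := h
      rw [mem_W] at h2
      exact ⟨h, by omega⟩
    · exact fun h => h.1
  rw [hW]
  by_cases hN : N = 0
  · subst hN
    simp [cntW, W]
  · rcases key (N - 1) (by omega) with h | h
    · omega
    · by_contra hcon
      push Not at hcon
      have h2 : q * (m + 1) ≤ q * cntW A N (N - 1) := Nat.mul_le_mul_left q hcon
      rw [Nat.mul_add, Nat.mul_one, Nat.mul_comm q m] at h2
      omega

/-- number of vertical steps before `n` -/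
def cntV (A : ℕ → ℕ) (n : ℕ) : ℕ := ((Finset.range n).filter (V A)).card

theorem cntV_succ {n : ℕ} : cntV A (n + 1) = cntV A n + if V A n then 1 else 0 := by
  unfold cntV
  rw [Finset.range_add_one, Finset.filter_insert]
  split_ifs with h
  · rw [Finset.card_insert_of_notMem (by simp)]
  · rfl

theorem Path.length (P : Path m q X r c N I J A) {n : ℕ} : n ≤ N →
    n + A n = 2 * cntV A n + A 0 := by
  induction n with
  | zero => intro _; simp [cntV]
  | succ n ih =>
    intro hn
    have h1 := ih (by omega)
    rw [cntV_succ]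
    split_ifs with h
    · have := (P.vert (n := n) (by omega) h).2.2.2
      omega
    · have := (P.horiz (n := n) (by omega) h).2.2.2
      omega

theorem cntV_le : cntV A N ≤ (K A N).card + (W A N).card + 1 := by
  unfold cntV
  have h : (Finset.range N).filter (V A) ⊆ insert (N - 1) (K A N ∪ W A N) := by
    intro n hn
    simp only [Finset.mem_filter, Finset.mem_range] at hn
    simp only [Finset.mem_insert, Finset.mem_union]
    by_cases h1 : n = N - 1
    · exact Or.inl h1
    · right
      rw [mem_K, mem_W]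
      by_cases h2 : V A (n + 1)
      · exact Or.inr ⟨by omega, hn.2, h2⟩
      · exact Or.inl ⟨by omega, hn.2, h2⟩
  refine (Finset.card_le_card h).trans ((Finset.card_insert_le _ _).trans ?_)
  have := Finset.card_union_le (K A N) (W A N)
  omega

theorem Path.bound (P : Path m q X r c N I J A) (hq : 1 ≤ q) (hc : Antitone c)
    (hmono : Monotone X) (hdouble : ∀ a, 1 ≤ a → 2 * X a ≤ X (a + 1))
    (hgood : ∀ i j, ¬ Arm m q X (r j + i) (c i + j)) : N ≤ 5 * m + 2 * q + 2 := by
  have h1 := P.card_K hq hc hmono hdouble hgood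
  have h2 := P.card_W hq
  have h3 := P.length le_rfl
  have h4 := cntV_le (A := A) (N := N)
  have h5 := P.st 0 (by omega)
  unfold St at h5
  omega

end

/-- Upper bound: for the one-arm zero-set every spanning enhancement pair spans within time
`5 m + 2 q + 3`. -/
theorem reach_arm {m q : ℕ} {X : ℕ → ℕ} (hq : 1 ≤ q) (hX0 : X 0 = 0) (hX1 : 1 ≤ X 1)
    (hdouble : ∀ a, 1 ≤ a → 2 * X a ≤ X (a + 1)) (hr : Antitone r) (hc : Antitone c)
    (hgood : ∀ i j, ¬ Arm m q X (r j + i) (c i + j)) (i j : ℕ) :
    Reach (Arm m q X) r c (5 * m + 2 * q + 3) i j := by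
  have hpos : ∀ a, 1 ≤ a → 1 ≤ X a := by
    intro a ha
    induction a, ha using Nat.le_induction with
    | base => exact hX1
    | succ a ha ih => have := hdouble a ha; omega
  have hstrict : ∀ a, X a < X (a + 1) := by
    intro a
    by_cases ha : 1 ≤ a
    · have := hdouble a ha
      have := hpos a ha
      omega
    · have : a = 0 := by omega
      subst this
      rw [hX0]
      exact hX1
  have hmono : Monotone X := monotone_nat_of_le_succ (fun a => (hstrict a).le)
  by_contra hn
  -- the initial state
  have hst : ∃ a, St m q X r c i j a := by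
    obtain ⟨a, ha1, ha2⟩ : ∃ a, (a ≤ m ∧ X a ≤ r j + i) ∧
        ∀ b, b ≤ m → X b ≤ r j + i → b ≤ a := by
      have hne : ((Finset.range (m + 1)).filter (fun a => X a ≤ r j + i)).Nonempty :=
        ⟨0, by simp [hX0]⟩
      refine ⟨((Finset.range (m + 1)).filter (fun a => X a ≤ r j + i)).max' hne, ?_, ?_⟩
      · have := Finset.max'_mem _ hne
        simp only [Finset.mem_filter, Finset.mem_range] at this
        exact ⟨by omega, this.2⟩
      · intro b hb1 hb2
        apply Finset.le_max'
        simp only [Finset.mem_filter, Finset.mem_range]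
        exact ⟨by omega, hb2⟩
    refine ⟨a, ha1.1, ha1.2, ?_⟩
    by_cases ham : a < m
    · have h1 : r j + i < X (a + 1) := by
        by_contra hcon
        push Not at hcon
        have := ha2 (a + 1) (by omega) hcon
        omega
      by_contra hcon
      push Not at hcon
      exact hgood i j ⟨a, ham, h1, hcon⟩
    · have : m - a = 0 := by omega
      rw [this]; simp
  obtain ⟨a, hst⟩ := hst
  obtain ⟨I, J, A, h4, h5, _, _, _⟩ := exists_path hX0 hstrict hq hr hc hgood _ i j a hst hn
  have P : Path m q X r c (5 * m + 2 * q + 3) I J A := ⟨h4, h5⟩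
  have := P.bound hq hc hmono hdouble hgood
  omega

end Q10.Enh
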